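import Pool.Agent.Lib.N4T.Out18

/-! Non-vanishing for compact Kähler fourfolds that resolve a terminal model with nef canonical
class, with no holomorphic form of degree one and a holomorphic form of degree two, unless the
forms of degree three define a pencil, or there are exceptional divisors, the square of the nef
class is zero and a Dolbeault group of degree three is not zero. -/

open scoped Manifold ContDiff Topology

namespace Pool.Agent.Results.MP_e06174_ag.KaehlerFourfolds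

open Pool.Agent.Lib.SV Pool.Agent.Lib.HS Pool.Agent.Lib.GH Pool.Agent.Lib.EX Pool.Agent.Lib.K3S
  Pool.Agent.Lib.KS Pool.Agent.Lib.F4 Pool.Agent.Lib.N4S

theorem result (X ι I : Type) [TopologicalSpace X] [ChartedSpace (E 4) X]
    [IsManifold 𝓘(ℂ, E 4) ω X] [CompactSpace X] [T2Space X] [ConnectedSpace X] [Fintype I]
    (G β : X → Mat 4) (U : ι → Set X) (f : I → ι → X → ℂ) (u : I → ι → ι → X → ℂ) (a : I → ℚ)
    (hG : Kaehler G) (hβ : Semi 4 G β) (hC : Ctr 4 β U f u) (hA : Amp U u β f)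
    (ha : ∀ k, 0 < a k) (hN : NefW 4 G β U u fun k => -a k) (hM : Mod U u G β f fun k => a k)
    (hT : ∀ η ∈ TF 4 X 3 0, ∀ k i, ∀ x ∈ U i, f k i x = 0 → ∀ v : Fin 3 → E 4,
      (∀ l, dAt 4 (f k i) x (v l) = 0) → η x v = 0)
    (h1 : ∀ ρ ∈ TF 4 X 1 0, ρ = 0) (h2 : ∃ σ ∈ TF 4 X 2 0, σ ≠ 0) :
    (∃ m, 0 < m ∧ ∃ s ∈ Pluri 4 X m, s ≠ 0) ∨ (((NSq U u G fun k => -a k) ∨ Nonempty I) ∧
      (∃ η ∈ TF 4 X 3 0, ∃ θ ∈ TF 4 X 3 0, LinearIndependent ℂ ![η, θ]) ∧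
        ∀ η ∈ TF 4 X 3 0, ∀ θ ∈ TF 4 X 3 0, ∀ x, ¬LinearIndependent ℂ ![η x, θ x]) ∨
      Nonempty I ∧ ¬(NSq U u G fun k => -a k) ∧ ∃ j : ℕ, 0 < j ∧
        ¬Cl 4 U u (j + 1) (fun k => ⌈-(j * a k)⌉) 3 ⊆ Ex 4 U u (j + 1) (fun k => ⌈-(j * a k)⌉) 3 :=
  Pool.Agent.Lib.N4T.out18 X ι I G β U f u a hG hβ hC hA ha hN hM hT h1 h2

end Pool.Agent.Results.MP_e06174_ag.KaehlerFourfolds
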