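import Pool.Agent.Lib.KBO.All

/-! Non-vanishing for compact Kähler manifolds whose canonical class is nef up to contracted
hypersurfaces and whose holomorphic Euler characteristic is not zero. -/

open scoped Manifold ContDiff Topology

namespace Pool.Agent.Results.MP_e06174_ag.KaehlerNonvanishing

open Pool.Agent.Lib.SV Pool.Agent.Lib.HS Pool.Agent.Lib.GH Pool.Agent.Lib.K3E Pool.Agent.Lib.K3S

theorem result (n : ℕ) (X ι I : Type) [TopologicalSpace X] [ChartedSpace (E n) X]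
    [IsManifold 𝓘(ℂ, E n) ω X] [CompactSpace X] [T2Space X] [ConnectedSpace X] [Fintype I]
    (G β : X → Mat n) (U : ι → Set X) (f : I → ι → X → ℂ) (u : I → ι → ι → X → ℂ) (a : I → ℚ)
    (hG : Kaehler G) (hβ : Semi n G β) (hD : Ctr n β U f u) (ha : ∀ k, 0 ≤ a k)
    (hN : NefW n G β U u fun k => -a k)
    (hχ : ∑ p ∈ Finset.range (n + 1), (-1 : ℤ) ^ p * Module.finrank ℂ (Forms n X p) ≠ 0) :
    ∃ m, 0 < m ∧ ∃ s ∈ Pluri n X m, s ≠ 0 :=
  Pool.Agent.Lib.KBO.aTOP n X ι I G β U f u a hG hβ hD ha hN hχ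

end Pool.Agent.Results.MP_e06174_ag.KaehlerNonvanishing
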