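import Pool.Agent.Lib.KN.Top

/-! The Kodaira dimension of a resolution of a Kähler minimal model is at least the order of growth
of the spaces of pluricanonically twisted tensors with values in a line bundle of bounded slope. -/

open scoped Manifold ContDiff Topology

namespace Pool.Agent.Results.MP_e06174_ag.KaehlerTensors

open Pool.Agent.Lib.SV Pool.Agent.Lib.HS Pool.Agent.Lib.GH Pool.Agent.Lib.K3S Pool.Agent.Lib.KS
  Pool.Agent.Lib.KF Pool.Agent.Lib.KN

theorem result (n : ℕ) (X ι I : Type) [TopologicalSpace X] [ChartedSpace (E n) X]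
    [IsManifold 𝓘(ℂ, E n) ω X] [CompactSpace X] [T2Space X] [ConnectedSpace X] [Fintype I]
    (G β : X → Mat n) (U : ι → Set X) (f : I → ι → X → ℂ) (u : I → ι → ι → X → ℂ) (a : I → ℚ)
    (v : ι → ι → X → ℂ) (q d : ℕ) (hn : 0 < n) (hG : Kaehler G) (hβ : Semi n G β)
    (hD : Ctr n β U f u) (hA : Amp U u β f) (ha : ∀ k, 0 ≤ a k)
    (hN : NefW n G β U u fun k => -a k) (hv : Coc n U v) (hS : Slope U G β u (fun k => -a k) v)
    (hT : Many (TensN n U v q) d) : Many (Pluri n X) d :=
  Pool.Agent.Lib.KN.aKN n X ι I G β U f u a v q d hn hG hβ hD hA ha hN hv hS hT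

end Pool.Agent.Results.MP_e06174_ag.KaehlerTensors
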