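import Pool.Agent.Lib.SV.All

/-! A bounded cohomology class of a Galois covering, evaluated on the fundamental class of a
projective manifold, is bounded by the volume of the canonical bundle. -/

open scoped Manifold ContDiff

namespace Pool.Agent.Results.MP_e06174_ag.SimplicialVolume

open Pool.Agent.Lib.SV

theorem result (n : ℕ) (hn : 0 < n) : ∃ κ : ℝ, 0 < κ ∧
    ∀ (X Y Γ : Type) [TopologicalSpace X] [ChartedSpace (E n) X] [IsManifold 𝓘(ℂ, E n) ω X]
      [CompactSpace X] [T2Space X] [ConnectedSpace X] [TopologicalSpace Y] [Group Γ] [Countable Γ]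
      [MulAction Γ Y] (π : Y → X) (τ : X → Y) (c : (Fin (n * 2 + 1) → Γ) → ℝ) (f : Y → ℝ) (r : ℕ)
      (x : Fin r → X) (B : Fin r → Set (E n)), Immersed n X → IsQuotientCoveringMap π Γ →
      (∀ z, π (τ z) = z) → BddCocycle (n * 2) c → Bump n Γ π f → Cells x B →
      ∃ᶠ a : ℕ in Filter.atTop,
        κ * |pairing π τ c f x B| * a ^ n ≤ Module.finrank ℂ (Pluri n X a) :=
  main n hn

end Pool.Agent.Results.MP_e06174_ag.SimplicialVolume
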